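import Pool.Agent.H573R2.EqDegSem

/-! # Equality of degrees is first-order definable in `K[t]`

For every algebraically closed field `K` of characteristic zero (in particular `K = ℂ`) the
relation `deg f = deg g` (with `deg 0 = -∞`) on `K[t]` is definable in the language of rings by a
first-order formula without parameters. This answers Q1. -/

namespace Pool.Agent.Results.MP_d395f7_lc.EqualDegreeDefinable

open Polynomial

universe u

theorem result {K : Type u} [Field K] [IsAlgClosed K] [CharZero K]
    [FirstOrder.Ring.CompatibleRing K[X]] :
    (∅ : Set K[X]).Definable FirstOrder.Language.ring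
      {v : Fin 2 → K[X] | (v 0).degree = (v 1).degree} := by
  have h := Pool.Agent.H573R2.EqDeg.definable_rel (M := K[X])
  have h2 : {v : Fin 2 → K[X] | Pool.Agent.H573R2.EqDeg.Rel (v 0) (v 1)} =
      {v : Fin 2 → K[X] | (v 0).degree = (v 1).degree} := by
    ext v
    exact Pool.Agent.H573R2.EqDeg.rel_iff (v 0) (v 1)
  rwa [h2] at h

end Pool.Agent.Results.MP_d395f7_lc.EqualDegreeDefinable
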